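import Pool.Agent.Lib.MP_0f1fb3_an.Sphere
import Pool.Agent.Lib.MP_0f1fb3_an.Doubling
import Pool.Agent.Lib.MP_0f1fb3_an.AreaUpper
import Pool.Agent.Lib.MP_0f1fb3_an.Loewner
import Pool.Agent.Lib.MP_0f1fb3_an.NonQS

/-! # MP_0f1fb3_an, Question 1: the answer is NO

There is a metric `2`-sphere of finite area which is doubling and `2`-Loewner but which is not a
quasisphere. The space is a sphere built from the cylinder `ℝ × (ℝ/ℤ)` (and its two ends) with a
length-like metric whose weight is `4 ^ (-κ)` on a fat self-similar set of positive area in the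
columns `j ≤ u < j + 1`, `κ = log₂ (|j| + 1)`, the circumference of the cylinder being kept small by
thin transition regions; it is not linearly locally connected, hence not a quasisphere.
-/

set_option autoImplicit false

open MeasureTheory Set
open scoped ENNReal NNReal Topology

namespace Pool.Agent.Results.MP_0f1fb3_an.LoewnerNotQuasisphere

open Pool.MP_0f1fb3_an

theorem result :
    ∃ (X : Type) (_ : MetricSpace X) (_ : MeasurableSpace X) (_ : BorelSpace X),
      Nonempty (S2 ≃ₜ X) ∧ (Measure.hausdorffMeasure 2 : Measure X) univ < ⊤ ∧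
        IsDoubling X ∧ IsLoewner X ∧ ¬ IsQuasisphere X :=
  ⟨Pt, inferInstance, inferInstance, inferInstance, nonempty_homeo, hausdorffMeasure_lt_top,
    isDoubling_Pt, isLoewner_Pt, not_quasisphere_Pt⟩

end Pool.Agent.Results.MP_0f1fb3_an.LoewnerNotQuasisphere
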